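import Mathlib

/-!
For a compact convex set `X` with Lindelöf set of extreme points `ext X` there are cofinally many
countable sets `Φ` of continuous linear functionals such that the image of `ext X` under the
evaluation map `ev Φ : E → (Φ → ℝ)` is a Borel set.
-/

namespace Pool.Agent.helper36.BExt

open Set Topology TopologicalSpace

variable {E : Type*} [AddCommGroup E] [Module ℝ E] [TopologicalSpace E]

/-- Joint evaluation at the functionals in `Φ`. -/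
def ev (Φ : Set (E →L[ℝ] ℝ)) (x : E) : Φ → ℝ := fun φ => φ.1 x

lemma continuous_ev (Φ : Set (E →L[ℝ] ℝ)) : Continuous (ev Φ) :=
  continuous_pi fun φ => φ.1.continuous

/-- The restriction map. -/
def restr {Φ Ψ : Set (E →L[ℝ] ℝ)} (h : Φ ⊆ Ψ) (u : Ψ → ℝ) : Φ → ℝ := fun φ => u ⟨φ.1, h φ.2⟩

lemma continuous_restr {Φ Ψ : Set (E →L[ℝ] ℝ)} (h : Φ ⊆ Ψ) : Continuous (restr h) :=
  continuous_pi fun _ => continuous_apply _

lemma measurable_restr {Φ Ψ : Set (E →L[ℝ] ℝ)} (h : Φ ⊆ Ψ) : Measurable (restr h) :=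
  measurable_pi_lambda _ fun _ => measurable_pi_apply _

/-- `V` is the preimage of an open set under `ev Φ`. -/
def Cyl (Φ : Set (E →L[ℝ] ℝ)) (V : Set E) : Prop :=
  ∃ C : Set (Φ → ℝ), IsOpen C ∧ V = ev Φ ⁻¹' C

lemma Cyl.mono {Φ Ψ : Set (E →L[ℝ] ℝ)} (h : Φ ⊆ Ψ) {V : Set E} (hV : Cyl Φ V) : Cyl Ψ V := by
  obtain ⟨C, hC, rfl⟩ := hV
  exact ⟨restr h ⁻¹' C, hC.preimage (continuous_restr h), rfl⟩

lemma Cyl.isOpen {Φ : Set (E →L[ℝ] ℝ)} {V : Set E} (hV : Cyl Φ V) : IsOpen V := by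
  obtain ⟨C, hC, rfl⟩ := hV
  exact hC.preimage (continuous_ev Φ)

lemma Cyl.univ (Φ : Set (E →L[ℝ] ℝ)) : Cyl Φ (Set.univ : Set E) := ⟨Set.univ, isOpen_univ, rfl⟩

lemma Cyl.inter {Φ : Set (E →L[ℝ] ℝ)} {V W : Set E} (hV : Cyl Φ V) (hW : Cyl Φ W) :
    Cyl Φ (V ∩ W) := by
  obtain ⟨C, hC, rfl⟩ := hV
  obtain ⟨D, hD, rfl⟩ := hW
  exact ⟨C ∩ D, hC.inter hD, rfl⟩

lemma Cyl.iUnion {ι : Type*} {Φ : Set (E →L[ℝ] ℝ)} {V : ι → Set E} (hV : ∀ i, Cyl Φ (V i)) :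
    Cyl Φ (⋃ i, V i) := by
  choose C hC hVC using hV
  refine ⟨⋃ i, C i, isOpen_iUnion hC, ?_⟩
  rw [preimage_iUnion]
  exact iUnion_congr hVC

section sep

variable [IsTopologicalAddGroup E] [ContinuousSMul ℝ E] [LocallyConvexSpace ℝ E] [T2Space E]

lemma exists_cyl_disjoint_compact {y : E} {N : Set E} (hN : IsCompact N) (hy : y ∉ N) :
    ∃ Φ : Set (E →L[ℝ] ℝ), Φ.Countable ∧ ∃ V : Set E, Cyl Φ V ∧ y ∈ V ∧ Disjoint V N := by
  refine hN.induction_on (p := fun N' => ∃ Φ : Set (E →L[ℝ] ℝ), Φ.Countable ∧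
      ∃ V : Set E, Cyl Φ V ∧ y ∈ V ∧ Disjoint V N') ?_ ?_ ?_ ?_
  · exact ⟨∅, countable_empty, Set.univ, Cyl.univ _, mem_univ _, disjoint_empty _⟩
  · rintro s t hst ⟨Φ, hΦ, V, hV, hyV, hd⟩
    exact ⟨Φ, hΦ, V, hV, hyV, hd.mono_right hst⟩
  · rintro s t ⟨Φ, hΦ, V, hV, hyV, hd⟩ ⟨Φ', hΦ', V', hV', hyV', hd'⟩
    refine ⟨Φ ∪ Φ', hΦ.union hΦ', V ∩ V', (hV.mono subset_union_left).inter
      (hV'.mono subset_union_right), ⟨hyV, hyV'⟩, ?_⟩
    rw [disjoint_union_right]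
    exact ⟨hd.mono_left inter_subset_left, hd'.mono_left inter_subset_right⟩
  · intro z hz
    have hne : y ≠ z := fun h => hy (h ▸ hz)
    obtain ⟨φ, hφ⟩ := geometric_hahn_banach_point_point hne
    obtain ⟨m, hm1, hm2⟩ := exists_between hφ
    refine ⟨{w | m < φ w}, mem_nhdsWithin_of_mem_nhds
      ((isOpen_lt continuous_const φ.continuous).mem_nhds hm2), {φ}, countable_singleton _,
      {w | φ w < m}, ⟨{u | u ⟨φ, rfl⟩ < m}, isOpen_lt (continuous_apply _) continuous_const, rfl⟩,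
      hm1, ?_⟩
    rw [Set.disjoint_left]
    intro w hw hw'
    exact lt_asymm (show φ w < m from hw) (show m < φ w from hw')

lemma exists_cyl_cover {S N : Set E} (hS : IsLindelof S) (hN : IsCompact N)
    (hd : Disjoint S N) :
    ∃ Φ : Set (E →L[ℝ] ℝ), Φ.Countable ∧ ∃ V : Set E, Cyl Φ V ∧ S ⊆ V ∧ Disjoint V N := by
  have h1 : ∀ y : S, ∃ Φ : Set (E →L[ℝ] ℝ), Φ.Countable ∧ ∃ V : Set E, Cyl Φ V ∧ y.1 ∈ V ∧
      Disjoint V N := fun y => exists_cyl_disjoint_compact hN (Set.disjoint_left.mp hd y.2)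
  choose Φ hΦ V hV hyV hdV using h1
  obtain ⟨r, hr, hcov⟩ := hS.elim_countable_subcover V (fun i => (hV i).isOpen)
    (fun y hy => mem_iUnion.mpr ⟨⟨y, hy⟩, hyV ⟨y, hy⟩⟩)
  have := hr.to_subtype
  refine ⟨⋃ i : r, Φ i, countable_iUnion fun i => hΦ i, ⋃ i : r, V i,
    Cyl.iUnion fun i => (hV i).mono (subset_iUnion (fun i : r => Φ i) i), ?_, ?_⟩
  · intro y hy
    obtain ⟨i, hi, hyi⟩ := mem_iUnion₂.mp (hcov hy)
    exact mem_iUnion.mpr ⟨⟨i, hi⟩, hyi⟩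
  · rw [disjoint_iUnion_left]
    exact fun i => hdV i

end sep

section bad

/-- Points of `X` which are non-extreme, as witnessed by `φ` and `n`. -/
def bad (X : Set E) (φ : E →L[ℝ] ℝ) (n : ℕ) : Set E :=
  {x | ∃ x₁ ∈ X, ∃ x₂ ∈ X, ∃ a : ℝ, 1 / (n + 1 : ℝ) ≤ a ∧ a ≤ 1 - 1 / (n + 1 : ℝ) ∧
    1 / (n + 1 : ℝ) ≤ φ x₁ - φ x₂ ∧ a • x₁ + (1 - a) • x₂ = x}

variable [IsTopologicalAddGroup E] [ContinuousSMul ℝ E]

lemma isCompact_bad {X : Set E} (hX : IsCompact X) (φ : E →L[ℝ] ℝ) (n : ℕ) :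
    IsCompact (bad X φ n) := by
  have hK : IsCompact ((X ×ˢ X ×ˢ Icc (1 / (n + 1 : ℝ)) (1 - 1 / (n + 1 : ℝ))) ∩
      {p : E × E × ℝ | 1 / (n + 1 : ℝ) ≤ φ p.1 - φ p.2.1}) := by
    refine (hX.prod (hX.prod isCompact_Icc)).inter_right ?_
    exact isClosed_le continuous_const (by fun_prop)
  have hcont : Continuous fun p : E × E × ℝ => p.2.2 • p.1 + (1 - p.2.2) • p.2.1 := by
    fun_prop
  convert hK.image hcont using 1
  ext x
  constructor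
  · rintro ⟨x₁, h1, x₂, h2, a, ha1, ha2, h3, h4⟩
    exact ⟨(x₁, x₂, a), ⟨⟨h1, h2, ha1, ha2⟩, h3⟩, h4⟩
  · rintro ⟨⟨x₁, x₂, a⟩, ⟨⟨h1, h2, ha1, ha2⟩, h3⟩, h4⟩
    exact ⟨x₁, h1, x₂, h2, a, ha1, ha2, h3, h4⟩

omit [IsTopologicalAddGroup E] [ContinuousSMul ℝ E] in
lemma disjoint_bad (X : Set E) (φ : E →L[ℝ] ℝ) (n : ℕ) :
    Disjoint (X.extremePoints ℝ) (bad X φ n) := by
  rw [Set.disjoint_left]
  rintro x hx ⟨x₁, h1, x₂, h2, a, ha1, ha2, h3, h4⟩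
  have hpos : 0 < 1 / (n + 1 : ℝ) := by positivity
  rw [mem_extremePoints] at hx
  have := hx.2 x₁ h1 x₂ h2 ⟨a, 1 - a, by linarith, by linarith, by ring, h4⟩
  rw [this.1, this.2] at h3
  linarith

end bad

section closing

/-- Closing off a countable set of functionals under a countable-set valued operation. -/
lemma exists_closed {D : Type*} (A : D → ℕ → Set D) (hA : ∀ d n, (A d n).Countable)
    (Ψ : Set D) (hΨ : Ψ.Countable) :
    ∃ Φ : Set D, Φ.Countable ∧ Ψ ⊆ Φ ∧ ∀ d ∈ Φ, ∀ n, A d n ⊆ Φ := by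
  let s : ℕ → Set D := fun k => Nat.rec Ψ (fun _ T => T ∪ ⋃ d ∈ T, ⋃ n, A d n) k
  have hs : ∀ k, (s k).Countable := by
    intro k
    induction k with
    | zero => exact hΨ
    | succ k ih =>
      exact ih.union (ih.biUnion fun d _ => countable_iUnion fun n => hA d n)
  refine ⟨⋃ k, s k, countable_iUnion hs, subset_iUnion s 0, ?_⟩
  intro d hd n x hx
  obtain ⟨k, hk⟩ := mem_iUnion.mp hd
  refine mem_iUnion.mpr ⟨k + 1, Or.inr ?_⟩
  exact mem_iUnion₂.mpr ⟨d, hk, mem_iUnion.mpr ⟨n, hx⟩⟩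

variable [IsTopologicalAddGroup E] [ContinuousSMul ℝ E] [LocallyConvexSpace ℝ E] [T2Space E]

theorem exists_measurable_image {X : Set E} (hX : IsCompact X)
    (hL : IsLindelof (X.extremePoints ℝ)) (Ψ : Set (E →L[ℝ] ℝ)) (hΨ : Ψ.Countable) :
    ∃ Φ : Set (E →L[ℝ] ℝ), Φ.Countable ∧ Ψ ⊆ Φ ∧
      MeasurableSet (ev Φ '' (X.extremePoints ℝ)) := by
  have h1 : ∀ (φ : E →L[ℝ] ℝ) (n : ℕ), ∃ Φ : Set (E →L[ℝ] ℝ), Φ.Countable ∧
      ∃ V : Set E, Cyl Φ V ∧ X.extremePoints ℝ ⊆ V ∧ Disjoint V (bad X φ n) := fun φ n =>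
    exists_cyl_cover hL (isCompact_bad hX φ n) (disjoint_bad X φ n)
  choose A hA V hV hsub hdisj using h1
  obtain ⟨Φ, hΦ, hΨΦ, hcl⟩ := exists_closed A hA Ψ hΨ
  refine ⟨Φ, hΦ, hΨΦ, ?_⟩
  have := hΦ.to_subtype
  have h2 : ∀ (φ : Φ) (n : ℕ), ∃ C : Set (Φ → ℝ), IsOpen C ∧ V φ.1 n = ev Φ ⁻¹' C :=
    fun φ n => (hV φ.1 n).mono (hcl φ.1 φ.2 n)
  choose C hC hVC using h2
  have key : ev Φ '' (X.extremePoints ℝ) = (ev Φ '' X) ∩ ⋂ (φ : Φ), ⋂ (n : ℕ), C φ n := by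
    apply Subset.antisymm
    · rintro _ ⟨x, hx, rfl⟩
      refine ⟨mem_image_of_mem _ (extremePoints_subset hx), ?_⟩
      simp only [mem_iInter]
      intro φ n
      have := hsub φ.1 n hx
      rw [hVC] at this
      exact this
    · rintro u ⟨⟨x, hx, hxu⟩, hu⟩
      simp only [mem_iInter] at hu
      have hcomp : IsCompact (X ∩ {z | ev Φ z = u}) :=
        hX.inter_right (isClosed_singleton.preimage (continuous_ev Φ))
      obtain ⟨z, hz⟩ := hcomp.extremePoints_nonempty ⟨x, hx, hxu⟩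
      rw [mem_extremePoints] at hz
      obtain ⟨⟨hzX, hzu⟩, hz2⟩ := hz
      have hzu' : ev Φ z = u := hzu
      refine ⟨z, ?_, hzu'⟩
      rw [mem_extremePoints]
      refine ⟨hzX, ?_⟩
      rintro x₁ h1 x₂ h2 ⟨a, b, ha, hb, hab, hx12⟩
      have hnb : ∀ (φ : Φ) (n : ℕ), z ∉ bad X φ.1 n := by
        intro φ n
        have : z ∈ V φ.1 n := by
          rw [hVC]
          change ev Φ z ∈ C φ n
          rw [hzu']
          exact hu φ n
        exact Set.disjoint_left.mp (hdisj φ.1 n) this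
      have hle : ∀ (w₁ w₂ : E), w₁ ∈ X → w₂ ∈ X → ∀ (a : ℝ), 0 < a → a < 1 →
          a • w₁ + (1 - a) • w₂ = z → ∀ φ : Φ, φ.1 w₁ ≤ φ.1 w₂ := by
        intro w₁ w₂ hw1 hw2 a ha ha1 hw φ
        by_contra hlt
        push Not at hlt
        obtain ⟨n, hn⟩ := exists_nat_one_div_lt (K := ℝ)
          (lt_min ha (lt_min (sub_pos.mpr ha1) (sub_pos.mpr hlt)))
        rw [lt_min_iff, lt_min_iff] at hn
        exact hnb φ n ⟨w₁, hw1, w₂, hw2, a, hn.1.le, by linarith [hn.2.1], hn.2.2.le, hw⟩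
      have hb' : b = 1 - a := by linarith
      have heq : ∀ φ : Φ, φ.1 x₁ = φ.1 x₂ := by
        intro φ
        apply le_antisymm
        · exact hle x₁ x₂ h1 h2 a ha (by linarith) (by rw [← hb']; exact hx12) φ
        · refine hle x₂ x₁ h2 h1 b hb (by linarith) ?_ φ
          rw [← hx12, add_comm]
          congr 2
          linarith
      have hev : ∀ φ : Φ, φ.1 z = φ.1 x₂ := by
        intro φ
        rw [← hx12, map_add, map_smul, map_smul, heq φ, hb']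
        simp only [smul_eq_mul]
        ring
      have e1 : ev Φ x₁ = u := by
        rw [← hzu']
        funext φ
        exact (heq φ).trans (hev φ).symm
      have e2 : ev Φ x₂ = u := by
        rw [← hzu']
        funext φ
        exact (hev φ).symm
      exact hz2 x₁ ⟨h1, e1⟩ x₂ ⟨h2, e2⟩ ⟨a, b, ha, hb, hab, hx12⟩
  rw [key]
  refine (hX.image (continuous_ev Φ)).isClosed.measurableSet.inter ?_
  exact MeasurableSet.iInter fun φ => MeasurableSet.iInter fun n => (hC φ n).measurableSet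

end closing

end Pool.Agent.helper36.BExt
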