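import Mathlib

/-!
If `J` is a subset of the Cantor space all of whose subsets are analytic, then `J` is countable.
-/

namespace Pool.Agent.helper36.BExt

open Set Filter Metric Function Topology MeasureTheory CantorScheme
open scoped ENNReal

section Scheme

variable {β γ : Type*} [MetricSpace β] [SecondCountableTopology β]
  [TopologicalSpace γ] [T2Space γ]

/-- Points of `E` all of whose neighbourhoods in `E` have uncountable image. -/
def core (h : β → γ) (E : Set β) : Set β :=
  {x | x ∈ E ∧ ∀ U : Set β, IsOpen U → x ∈ U → ¬ (h '' (U ∩ E)).Countable}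

omit [TopologicalSpace γ] [T2Space γ] in
lemma countable_image_diff_core (h : β → γ) (E : Set β) : (h '' (E \ core h E)).Countable := by
  classical
  let B := TopologicalSpace.countableBasis β
  have hB := TopologicalSpace.isBasis_countableBasis β
  have hBc : B.Countable := TopologicalSpace.countable_countableBasis β
  have hsub : E \ core h E ⊆ ⋃ b ∈ {b ∈ B | (h '' (b ∩ E)).Countable}, b ∩ E := by
    rintro x ⟨hxE, hx⟩
    simp only [core, mem_ofPred_eq, not_and, not_forall, not_not] at hx
    obtain ⟨U, hU, hxU, hc⟩ := hx hxE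
    obtain ⟨b, hb, hxb, hbU⟩ := hB.exists_subset_of_mem_open hxU hU
    refine mem_iUnion₂.mpr ⟨b, ⟨hb, hc.mono ?_⟩, hxb, hxE⟩
    exact image_mono (inter_subset_inter_left _ hbU)
  refine Countable.mono (image_mono hsub) ?_
  rw [image_iUnion₂]
  refine Countable.biUnion (hBc.mono fun b hb => hb.1) ?_
  rintro b ⟨_, hb⟩
  exact hb

lemma splitting {h : β → γ} (hcont : Continuous h) {E : Set β} (hE : IsClosed E)
    (hu : ¬ (h '' E).Countable) {ε : ℝ≥0∞} (hε : 0 < ε) :
    ∃ C₀ C₁ : Set β,
      (IsClosed C₀ ∧ ¬ (h '' C₀).Countable ∧ C₀ ⊆ E ∧ Metric.ediam C₀ ≤ ε) ∧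
      (IsClosed C₁ ∧ ¬ (h '' C₁).Countable ∧ C₁ ⊆ E ∧ Metric.ediam C₁ ≤ ε) ∧
      Disjoint (h '' C₀) (h '' C₁) := by
  have hcore : ¬ (h '' core h E).Countable := by
    intro hc
    apply hu
    refine (hc.union (countable_image_diff_core h E)).mono ?_
    rw [← image_union]
    apply image_mono
    intro x hx
    by_cases hx' : x ∈ core h E
    · exact Or.inl hx'
    · exact Or.inr ⟨hx, hx'⟩
  have hnt : (h '' core h E).Nontrivial := by
    by_contra hnt
    rw [not_nontrivial_iff] at hnt
    exact hcore hnt.countable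
  obtain ⟨_, ⟨x₀, hx₀, rfl⟩, _, ⟨x₁, hx₁, rfl⟩, hne⟩ := hnt
  obtain ⟨V₀, V₁, hV₀, hV₁, h0, h1, hdisj⟩ := t2_separation hne
  have key : ∀ (x : β) (V : Set γ), x ∈ core h E → IsOpen V → h x ∈ V →
      ∃ C : Set β, IsClosed C ∧ ¬ (h '' C).Countable ∧ C ⊆ E ∧ Metric.ediam C ≤ ε ∧
        h '' C ⊆ V := by
    intro x V hx hV hxV
    have hopen : IsOpen (h ⁻¹' V ∩ Metric.eball x (ε / 2)) :=
      (hV.preimage hcont).inter Metric.isOpen_eball
    have hmem : x ∈ h ⁻¹' V ∩ Metric.eball x (ε / 2) := by
      refine ⟨hxV, Metric.mem_eball_self ?_⟩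
      exact ENNReal.div_pos hε.ne' (by simp)
    obtain ⟨δ, hδ, hsub⟩ := Metric.isOpen_iff.mp hopen x hmem
    refine ⟨Metric.closedBall x (δ / 2) ∩ E, Metric.isClosed_closedBall.inter hE, ?_,
      inter_subset_right, ?_, ?_⟩
    · intro hc
      refine hx.2 (Metric.ball x (δ / 2)) Metric.isOpen_ball
        (Metric.mem_ball_self (by positivity)) (hc.mono ?_)
      exact image_mono (inter_subset_inter_left _ Metric.ball_subset_closedBall)
    · have hs : Metric.closedBall x (δ / 2) ∩ E ⊆ Metric.eball x (ε / 2) := by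
        intro y hy
        exact (hsub (Metric.closedBall_subset_ball (by linarith) hy.1)).2
      refine (Metric.ediam_mono hs).trans ?_
      refine (Metric.ediam_eball_le (x := x)).trans ?_
      rw [mul_comm, ENNReal.div_mul_cancel] <;> norm_num
    · rintro _ ⟨y, hy, rfl⟩
      exact (hsub (Metric.closedBall_subset_ball (by linarith) hy.1)).1
  obtain ⟨C₀, a1, a2, a3, a4, a5⟩ := key x₀ V₀ hx₀ hV₀ h0
  obtain ⟨C₁, b1, b2, b3, b4, b5⟩ := key x₁ V₁ hx₁ hV₁ h1
  exact ⟨C₀, C₁, ⟨a1, a2, a3, a4⟩, ⟨b1, b2, b3, b4⟩, hdisj.mono a5 b5⟩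

theorem exists_nat_bool_injection {h : β → γ} [CompleteSpace β] (hcont : Continuous h)
    (hu : ¬ (range h).Countable) :
    ∃ k : (ℕ → Bool) → γ, range k ⊆ range h ∧ Continuous k ∧ Injective k := by
  obtain ⟨u, -, upos', hu'⟩ := exists_seq_strictAnti_tendsto' (zero_lt_one' ℝ≥0∞)
  have upos := fun n => (upos' n).1
  let P := Subtype fun E : Set β => IsClosed E ∧ ¬ (h '' E).Countable
  choose C0 C1 h0 h1 hdisj using
    fun {C : Set β} (hC : IsClosed C) (hnonempty : ¬ (h '' C).Countable)
      {ε : ℝ≥0∞} (hε : 0 < ε) => splitting hcont hC hnonempty hε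
  let DP : List Bool → P := fun l => by
    induction l with
    | nil => exact ⟨univ, ⟨isClosed_univ, by rwa [image_univ]⟩⟩
    | cons a l ih =>
      cases a
      · use C0 ih.property.1 ih.property.2 (upos (l.length + 1))
        exact ⟨(h0 _ _ _).1, (h0 _ _ _).2.1⟩
      use C1 ih.property.1 ih.property.2 (upos (l.length + 1))
      exact ⟨(h1 _ _ _).1, (h1 _ _ _).2.1⟩
  let D : List Bool → Set β := fun l => (DP l).val
  have hanti : ClosureAntitone D := by
    refine Antitone.closureAntitone ?_ fun l => (DP l).property.1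
    intro l a
    cases a
    · exact (h0 _ _ _).2.2.1
    exact (h1 _ _ _).2.2.1
  have hdiam : VanishingDiam D := by
    intro x
    apply tendsto_of_tendsto_of_tendsto_of_le_of_le' tendsto_const_nhds hu'
    · simp
    rw [eventually_atTop]
    refine ⟨1, fun m (hm : 1 ≤ m) => ?_⟩
    rw [Nat.one_le_iff_ne_zero] at hm
    rcases Nat.exists_eq_succ_of_ne_zero hm with ⟨n, rfl⟩
    dsimp
    cases x n
    · convert! (h0 _ _ _).2.2.2
      rw [PiNat.res_length]
    convert! (h1 _ _ _).2.2.2
    rw [PiNat.res_length]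
  have hdisj' : ∀ (l : List Bool) (a b : Bool), a ≠ b →
      _root_.Disjoint (h '' D (a :: l)) (h '' D (b :: l)) := by
    rintro l (a | a) (b | b) hab <;> try contradiction
    · exact hdisj _ _ _
    exact (hdisj _ _ _).symm
  have hne : ∀ l, (D l).Nonempty := by
    intro l
    by_contra hne
    rw [not_nonempty_iff_eq_empty] at hne
    have := (DP l).property.2
    apply this
    change (h '' D l).Countable
    rw [hne]
    simp
  have hdom : ∀ {x : ℕ → Bool}, x ∈ (inducedMap D).1 := fun {x} => by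
    rw [hanti.map_of_vanishingDiam hdiam hne]
    apply mem_univ
  have hmem : ∀ (x : ℕ → Bool) (n : ℕ), (inducedMap D).2 ⟨x, hdom⟩ ∈ D (PiNat.res x n) :=
    fun x n => map_mem ⟨x, hdom⟩ n
  refine ⟨fun x => h ((inducedMap D).2 ⟨x, hdom⟩), ?_, ?_, ?_⟩
  · rintro y ⟨x, rfl⟩
    exact mem_range_self _
  · apply hcont.comp
    apply hdiam.map_continuous.comp
    fun_prop
  · intro x y hxy
    apply PiNat.res_injective
    ext n : 1
    induction n with
    | zero => simp
    | succ n ih =>
      simp only [PiNat.res_succ, List.cons.injEq]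
      refine ⟨?_, ih⟩
      by_contra hne'
      have hd := hdisj' (PiNat.res x n) (x n) (y n) hne'
      rw [Set.disjoint_left] at hd
      refine hd (a := h ((inducedMap D).2 ⟨x, hdom⟩)) ?_ ?_
      · have := hmem x (n + 1)
        rw [PiNat.res_succ] at this
        exact mem_image_of_mem h this
      · have := hmem y (n + 1)
        rw [PiNat.res_succ, ← ih] at this
        have hxy' : h ((inducedMap D).2 ⟨x, hdom⟩) = h ((inducedMap D).2 ⟨y, hdom⟩) := hxy
        rw [hxy']
        exact mem_image_of_mem h this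

end Scheme

/-- There is a non-measurable subset of the Cantor space. -/
lemma exists_not_measurable : ∃ T : Set (ℕ → Bool), ¬ MeasurableSet T := by
  by_contra hcon
  push Not at hcon
  have h1 : Cardinal.mk {T : Set (ℕ → Bool) // MeasurableSet T} ≤ Cardinal.continuum := by
    obtain ⟨b, hb, hgen⟩ := (MeasurableSpace.CountablyGenerated.isCountablyGenerated
      (α := ℕ → Bool))
    have := MeasurableSpace.cardinal_measurableSet_le_continuum
      (s := b) ((Cardinal.le_aleph0_iff_set_countable.mpr hb).trans Cardinal.aleph0_le_continuum)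
    rw [← hgen] at this
    exact this
  have h2 : Cardinal.mk (Set (ℕ → Bool)) ≤ Cardinal.mk {T : Set (ℕ → Bool) // MeasurableSet T} :=
    Cardinal.mk_le_of_injective (f := fun T => ⟨T, hcon T⟩) fun a b hab => by simpa using hab
  have h3 : Cardinal.mk (ℕ → Bool) = Cardinal.continuum := by simp
  have h4 := Cardinal.cantor (Cardinal.mk (ℕ → Bool))
  rw [← Cardinal.mk_set] at h4
  rw [h3] at h4
  exact absurd (h2.trans h1) (not_le.mpr h4)

/-- A set of reals (Cantor space) all of whose subsets are analytic is countable. -/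
theorem countable_of_forall_analytic (J : Set (ℕ → Bool))
    (hJ : ∀ A : Set (ℕ → Bool), AnalyticSet (J ∩ A)) : J.Countable := by
  by_contra hunc
  have hJ0 : AnalyticSet J := by simpa using hJ univ
  rw [analyticSet_iff_exists_polishSpace_range] at hJ0
  obtain ⟨β, tβ, pβ, h, hcont, hrange⟩ := hJ0
  let := TopologicalSpace.upgradeIsCompletelyMetrizable β
  have hunc' : ¬ (range h).Countable := by rwa [hrange]
  obtain ⟨k, hk1, hk2, hk3⟩ := exists_nat_bool_injection hcont hunc'
  rw [hrange] at hk1
  obtain ⟨T, hT⟩ := exists_not_measurable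
  apply hT
  have e1 : J ∩ (k '' T) = k '' T :=
    inter_eq_right.mpr ((image_subset_range _ _).trans hk1)
  have e2 : J ∩ (k '' Tᶜ) = k '' Tᶜ :=
    inter_eq_right.mpr ((image_subset_range _ _).trans hk1)
  have a1 : AnalyticSet (k '' T) := by rw [← e1]; exact hJ _
  have a2 : AnalyticSet (k '' Tᶜ) := by rw [← e2]; exact hJ _
  have hd : Disjoint (k '' T) (k '' Tᶜ) :=
    (disjoint_image_iff hk3).mpr disjoint_compl_right
  obtain ⟨B, hB1, hB2, hB3⟩ := a1.measurablySeparable a2 hd
  have : T = k ⁻¹' B := by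
    ext x
    constructor
    · intro hx
      exact hB1 (mem_image_of_mem k hx)
    · intro hx
      by_contra hxT
      exact Set.disjoint_left.mp hB2 (mem_image_of_mem k hxT) hx
  rw [this]
  exact hk2.measurable hB3

end Pool.Agent.helper36.BExt
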